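import Pool.Agent.H90.FB.Ml

/-!
MP_572ea3_nt: the additional moduli of the certificates (generated), and the conclusion for a block of `D`.
-/

set_option autoImplicit false
set_option maxRecDepth 100000

namespace Pool.Agent.H90.FB

/-- the additional moduli with their periods -/
def qs : List (ℕ × ℕ) := [(13, 28), (29, 14), (43, 88), (47, 32), (53, 108), (71, 70), (83, 168), (89, 44), (109, 108), (167, 336), (199, 22), (211, 42), (271, 270), (281, 56), (307, 88), (331, 110), (421, 84)]

theorem qs_ok : qs.all pc = true := by decide +kernel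

/-- the check of a list of certificates -/
noncomputable def cok (l : List ℕ) (cs : List (ℕ × List ℕ × ℕ × List (ℕ × ℕ))) : Bool :=
  and (cs.all ck) (and (cs.all fun c => c.2.2.2.all fun x => qs.contains x)
    (l.all fun D => or (Nat.ble D 2) (cs.any fun c => Nat.beq c.1 D)))

theorem cok_spec {l : List ℕ} {cs : List (ℕ × List ℕ × ℕ × List (ℕ × ℕ))} (h : cok l cs = true) {D : ℕ}
    (hD : D ∈ l) (h3 : 3 ≤ D) {n : ℕ} {t : ℤ} (hn : (Nat.fib n : ℤ) = D * (D ^ 2 + 3 * t ^ 2)) : False := by
  unfold cok at h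
  rw [Bool.and_eq_true, Bool.and_eq_true, List.all_eq_true, List.all_eq_true, List.all_eq_true] at h
  obtain ⟨h1, h2, h4⟩ := h
  have h5 := h4 D hD
  rw [Bool.or_eq_true, List.any_eq_true] at h5
  rcases h5 with h5 | ⟨c, hc, h5⟩
  · have := Nat.le_of_ble_eq_true h5
    omega
  · rw [beq_iff] at h5
    refine ck_spec (h1 c hc) (fun x hx => ?_) (n := n) (t := t) (by rw [h5]; exact hn)
    have h6 := h2 c hc
    rw [List.all_eq_true] at h6
    have h7 := h6 x hx
    rw [List.contains_iff_mem] at h7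
    exact List.all_eq_true.1 qs_ok x h7

theorem blk {l : List ℕ} {cs : List (ℕ × List ℕ × ℕ × List (ℕ × ℕ))} (h : cok l cs = true) {k s : ℕ}
    (ha : al (f l) k s = true) {D : ℕ} (h1 : s ≤ D) (h2 : D < s + 2 ^ k) (h3 : 3 ≤ D) {n : ℕ} {t : ℤ}
    (hn : (Nat.fib n : ℤ) = D * (D ^ 2 + 3 * t ^ 2)) : False :=
  cok_spec h (f_spec (al_spec k s ha D h1 h2) hn) h3 hn

end Pool.Agent.H90.FB
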