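import Pool.Agent.H90.FB.Ml
import Pool.Agent.H21.FC.Main

/-!
MP_572ea3_nt: `F n = 6 T ^ 2 + 8` only for `n = 6`.
-/

set_option autoImplicit false
set_option maxRecDepth 100000

namespace Pool.Agent.H90.FB

open H21FC

/-- `F (m + 2 k) + F m = F (m + k) * L k` for even `k`. -/
theorem F_two {k : ℕ} (hk : Even k) (m : ℕ) : F (m + 2 * k) + F m = F (m + k) * L k := by
  obtain ⟨j, rfl⟩ := hk
  rcases Nat.eq_zero_or_pos j with rfl | hj
  · simp only [add_zero, mul_zero, L0]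
    ring
  obtain ⟨i, rfl⟩ : ∃ i, j = i + 1 := ⟨j - 1, by omega⟩
  have hc := cassini (i + 1 + (i + 1))
  have hsign : ((-1 : ℤ)) ^ (i + 1 + (i + 1)) = 1 := by
    rw [← two_mul, pow_mul]
    norm_num
  rw [hsign] at hc
  set k := i + 1 + (i + 1) with hkd
  obtain ⟨k', hk'⟩ : ∃ k', k = k' + 1 := ⟨k - 1, by omega⟩
  have e1 : F (m + k) = F k' * F m + F (k' + 1) * F (m + 1) := by
    rw [show m + k = k' + m + 1 by omega, F_add]
  have e2 : F (m + 1 + k) = F k' * F (m + 1) + F (k' + 1) * F (m + 2) := by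
    rw [show m + 1 + k = k' + (m + 1) + 1 by omega, F_add]
  have e3 : F (m + 2 * k) = F k' * F (m + k) + F (k' + 1) * F (m + 1 + k) := by
    rw [show m + 2 * k = k' + (m + k) + 1 by omega, F_add, show m + k + 1 = m + 1 + k by ring]
  have e4 : F (k + 1) = F k' + F k := by
    rw [hk', show k' + 1 + 1 = k' + 2 by ring, F_rec]
  have e5 : L k = 2 * F (k + 1) - F k := rfl
  rw [e3, e2, e1, F_rec, e5, ← hk', e4]
  rw [e4] at hc
  linear_combination -(F m) * hc

theorem F_mul {k : ℕ} (hk : Even k) (m i : ℕ) : L k ∣ F (m + 2 * k * i) - (-1) ^ i * F m := by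
  induction i with
  | zero => simp
  | succ i ih =>
    have h := F_two hk (m + 2 * k * i)
    have e : m + 2 * k * (i + 1) = m + 2 * k * i + 2 * k := by ring
    rw [e]
    obtain ⟨c, hc⟩ := ih
    refine ⟨F (m + 2 * k * i + k) - c, ?_⟩
    rw [pow_succ]
    linear_combination h - hc

/-- `L (2 ^ (s + 3)) = 23` modulo 24 -/
theorem L_pow (s : ℕ) : L (2 ^ (s + 3)) % 24 = 23 := by
  induction s with
  | zero =>
    have h : L (2 ^ (0 + 3)) = 47 := by
      unfold L F
      norm_num [Nat.fib_add_two]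
    rw [h]
    norm_num
  | succ s ih =>
    have hE : Even (2 ^ (s + 3)) := ⟨2 ^ (s + 2), by ring⟩
    have h := L_two hE 0
    rw [zero_add, zero_add, L0, show 2 * 2 ^ (s + 3) = 2 ^ (s + 1 + 3) by ring] at h
    have h1 : L (2 ^ (s + 1 + 3)) = L (2 ^ (s + 3)) * L (2 ^ (s + 3)) - 2 := by linarith
    rw [h1]
    have h2 : (L (2 ^ (s + 3)) * L (2 ^ (s + 3))) % 24 = 1 := by
      rw [Int.mul_emod, ih]
      norm_num
    omega

/-- `6 T ^ 2 + 16` is not divisible by a positive number `23` modulo 24 -/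
theorem no_six {N : ℕ} {T : ℤ} (hN : N % 24 = 23) (h : (N : ℤ) ∣ 6 * T ^ 2 + 16) : False := by
  have hodd : Odd N := by rw [Nat.odd_iff]; omega
  have h1 : jacobiSym (-6) N = -1 := by
    rw [jacobiSym.mod_right (-6) hodd]
    have e : N % (4 * (-6 : ℤ).natAbs) = 23 := by
      have e1 : (4 * (-6 : ℤ).natAbs) = 24 := by decide
      rw [e1]
      exact hN
    rw [e]
    norm_num
  have h4 : Int.gcd 4 (N : ℤ) = 1 := by
    have h2 : Nat.Coprime (2 ^ 2) N := Nat.Coprime.pow_left 2 ((Nat.coprime_two_left).2 hodd)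
    exact h2
  have hT : Int.gcd (6 * T) (N : ℤ) = 1 := by
    by_contra hne
    obtain ⟨p, hp, hpd⟩ := Nat.exists_prime_and_dvd hne
    have hp1 : (p : ℤ) ∣ 6 * T := (Int.natCast_dvd_natCast.2 hpd).trans (Int.gcd_dvd_left _ _)
    have hp2 : (p : ℤ) ∣ (N : ℤ) := (Int.natCast_dvd_natCast.2 hpd).trans (Int.gcd_dvd_right _ _)
    have hp2' : p ∣ N := Int.natCast_dvd_natCast.1 hp2
    have hpp : Prime (p : ℤ) := Nat.prime_iff_prime_int.1 hp
    have hp3 : ¬ p ∣ 6 := by
      intro h6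
      have h7 : p ∣ 2 * 3 := h6
      rcases (hp.dvd_mul).1 h7 with h8 | h8
      · rw [(Nat.prime_dvd_prime_iff_eq hp Nat.prime_two).1 h8] at hp2'
        omega
      · rw [(Nat.prime_dvd_prime_iff_eq hp Nat.prime_three).1 h8] at hp2'
        omega
    have hpT : (p : ℤ) ∣ T := by
      rcases hpp.dvd_or_dvd hp1 with h8 | h8
      · exact absurd (by exact_mod_cast h8 : p ∣ 6) hp3
      · exact h8
    have h16 : (p : ℤ) ∣ 16 := by
      have h9 : (p : ℤ) ∣ 6 * T ^ 2 + 16 := hp2.trans h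
      have h10 : (p : ℤ) ∣ 6 * T ^ 2 := by
        rw [pow_two]
        exact (hpT.mul_right T).mul_left 6
      exact (dvd_add_right h10).1 h9
    have h17 : p ∣ 2 ^ 4 := by
      have : p ∣ 16 := by exact_mod_cast h16
      exact this
    have h18 := hp.dvd_of_dvd_pow h17
    exact hp3 (h18.trans (by norm_num))
  have h5 : jacobiSym ((6 * T) ^ 2) N = jacobiSym (-6 * 4 ^ 2) N := by
    apply jacobiSym.mod_left'
    refine (Int.emod_emod_of_dvd _ (dvd_refl _)).symm.trans ?_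
    rw [Int.emod_emod_of_dvd _ (dvd_refl _)]
    refine Int.ModEq.symm ((Int.modEq_iff_dvd).2 ?_)
    have e : (6 * T) ^ 2 - -6 * 4 ^ 2 = (6 * T ^ 2 + 16) * 6 := by ring
    rw [e]
    exact h.mul_right 6
  rw [jacobiSym.sq_one' hT, jacobiSym.mul_left, jacobiSym.sq_one' h4, h1] at h5
  norm_num at h5

end Pool.Agent.H90.FB
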