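import Mathlib

/-!
MP_572ea3_nt: Fibonacci numbers of the form `D (D ^ 2 + 3 T ^ 2)`, a sieve on the index modulo 720. Definitions of the
checks and their meaning.
-/

set_option autoImplicit false

namespace Pool.Agent.H90.FB

theorem beq_iff {a b : ℕ} : Nat.beq a b = true ↔ a = b :=
  ⟨Nat.eq_of_beq_eq_true, fun h => by rw [h]; exact Nat.beq_refl b⟩

/-- bit `n` of `P` -/
def tb (P n : ℕ) : Bool := Nat.beq (Nat.land (Nat.shiftRight P n) 1) 1

theorem tb_iff {P n : ℕ} : tb P n = true ↔ P.testBit n = true := by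
  unfold tb
  rw [beq_iff, Nat.testBit_eq_decide_div_mod_eq, decide_eq_true_eq]
  show (P >>> n) &&& 1 = 1 ↔ _
  rw [Nat.and_one_is_mod, Nat.shiftRight_eq_div_pow]

/-- `k` steps of the Fibonacci sequence modulo `q` from the index `r`, with bit tests -/
noncomputable def cp (q P : ℕ) (k : ℕ) : ℕ → ℕ → ℕ → Bool :=
  Nat.rec (fun _ a b => and (Nat.beq a 0) (Nat.beq b 1))
    (fun _ ih r a b => and (tb P (720 * a + r)) (ih (r + 1) b ((a + b) % q))) k

theorem cp_zero (q P r a b : ℕ) : cp q P 0 r a b = and (Nat.beq a 0) (Nat.beq b 1) := rfl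

theorem cp_succ (q P k r a b : ℕ) :
    cp q P (k + 1) r a b = and (tb P (720 * a + r)) (cp q P k (r + 1) b ((a + b) % q)) := rfl

theorem fib_step (q n : ℕ) : (Nat.fib n % q + Nat.fib (n + 1) % q) % q = Nat.fib (n + 2) % q := by
  rw [Nat.fib_add_two, ← Nat.add_mod]

theorem cp_spec {q P : ℕ} : ∀ k r : ℕ, cp q P k r (Nat.fib r % q) (Nat.fib (r + 1) % q) = true →
    (∀ i, r ≤ i → i < r + k → P.testBit (720 * (Nat.fib i % q) + i) = true) ∧
      Nat.fib (r + k) % q = 0 ∧ Nat.fib (r + k + 1) % q = 1 := by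
  intro k
  induction k with
  | zero =>
    intro r h
    rw [cp_zero, Bool.and_eq_true, beq_iff, beq_iff] at h
    exact ⟨fun i h1 h2 => by omega, h.1, h.2⟩
  | succ k ih =>
    intro r h
    rw [cp_succ, Bool.and_eq_true, tb_iff, fib_step] at h
    obtain ⟨h1, h2⟩ := h
    obtain ⟨h3, h4, h5⟩ := ih (r + 1) h2
    refine ⟨fun i hi hk => ?_, ?_, ?_⟩
    · rcases Nat.eq_or_lt_of_le hi with rfl | hlt
      · exact h1
      · exact h3 i hlt (by omega)
    · rw [show r + (k + 1) = r + 1 + k by ring]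
      exact h4
    · rw [show r + (k + 1) + 1 = r + 1 + k + 1 by ring]
      exact h5

/-- periodicity -/
theorem fib_per {q p : ℕ} (h0 : Nat.fib p % q = 0) (h1 : Nat.fib (p + 1) % q = 1) (n : ℕ) :
    Nat.fib (n + p) % q = Nat.fib n % q := by
  rcases Nat.eq_zero_or_pos n with rfl | hn
  · rw [zero_add, h0, Nat.fib_zero, Nat.zero_mod]
  · obtain ⟨m, rfl⟩ : ∃ m, n = m + 1 := ⟨n - 1, by omega⟩
    rw [show m + 1 + p = m + p + 1 by ring, Nat.fib_add, Nat.add_mod, Nat.mul_mod, h0, mul_zero,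
      Nat.zero_mod, zero_add, Nat.mod_mod, Nat.mul_mod, h1, mul_one, Nat.mod_mod]

theorem fib_per' {q p : ℕ} (h0 : Nat.fib p % q = 0) (h1 : Nat.fib (p + 1) % q = 1) (n : ℕ) :
    Nat.fib n % q = Nat.fib (n % p) % q := by
  have h : ∀ k r : ℕ, Nat.fib (r + p * k) % q = Nat.fib r % q := by
    intro k
    induction k with
    | zero => intro r; rw [mul_zero, add_zero]
    | succ k ih =>
      intro r
      rw [show r + p * (k + 1) = (r + p * k) + p by ring, fib_per h0 h1, ih]
  conv_lhs => rw [← Nat.mod_add_div n p]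
  exact h _ _

/-- 720 ones -/
def full : ℕ := 2 ^ 720 - 1

/-- the slice `v` of `P` -/
def sl (P v : ℕ) : ℕ := Nat.land (Nat.shiftRight P (720 * v)) full

/-- the slice for the value of `j (j ^ 2 + 3 t ^ 2)` is contained in the slice `j` of `T` -/
def ce (q P T j t : ℕ) : Bool :=
  Nat.beq (Nat.land (sl P ((j * (j * j + 3 * (t * t))) % q)) (Nat.shiftRight T (720 * j)))
    (sl P ((j * (j * j + 3 * (t * t))) % q))

/-- `∀ i < k, f i` -/
noncomputable def fa (f : ℕ → Bool) (k : ℕ) : Bool := Nat.rec true (fun i ih => and (f i) ih) k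

theorem fa_spec {f : ℕ → Bool} {k : ℕ} (h : fa f k = true) : ∀ i < k, f i = true := by
  induction k with
  | zero => intro i hi; omega
  | succ k ih =>
    intro i hi
    have e : fa f (k + 1) = and (f k) (fa f k) := rfl
    rw [e, Bool.and_eq_true] at h
    rcases Nat.lt_succ_iff_lt_or_eq.1 hi with h1 | rfl
    · exact ih h.2 i h1
    · exact h.1

/-- the check of the tables for the modulus `q` -/
noncomputable def chk (q P T : ℕ) : Bool :=
  and (cp q P 720 0 0 (1 % q)) (fa (fun j => fa (fun t => ce q P T j t) q) q)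

theorem testBit_full {r : ℕ} : full.testBit r = decide (r < 720) := by
  unfold full
  rw [Nat.testBit_two_pow_sub_one]

theorem sl_bit {P v r : ℕ} (hr : r < 720) : (sl P v).testBit r = P.testBit (720 * v + r) := by
  have e : sl P v = (P >>> (720 * v)) &&& full := rfl
  rw [e, Nat.testBit_and, testBit_full, Nat.testBit_shiftRight, decide_eq_true hr, Bool.and_true]

/-- what the tables say -/
theorem chk_spec {q P T : ℕ} (h : chk q P T = true) (hq : 0 < q) {n D : ℕ} {t : ℤ}
    (hn : (Nat.fib n : ℤ) = D * (D ^ 2 + 3 * t ^ 2)) :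
    T.testBit (720 * (D % q) + n % 720) = true := by
  unfold chk at h
  rw [Bool.and_eq_true] at h
  obtain ⟨h1, h2⟩ := h
  have h3 : Nat.fib 0 % q = 0 := by rw [Nat.fib_zero, Nat.zero_mod]
  have h4 : Nat.fib (0 + 1) % q = 1 % q := by rw [zero_add, Nat.fib_one]
  rw [← h4] at h1
  have h1' : cp q P 720 0 (Nat.fib 0 % q) (Nat.fib (0 + 1) % q) = true := by
    rw [h3]
    exact h1
  obtain ⟨h5, h6, h7⟩ := cp_spec 720 0 h1'
  rw [zero_add] at h6 h7
  have hr : n % 720 < 720 := Nat.mod_lt _ (by norm_num)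
  have h8 := h5 (n % 720) (Nat.zero_le _) (by omega)
  rw [← fib_per' h6 h7 n] at h8
  -- the value
  obtain ⟨s, hs⟩ : ∃ s : ℕ, (s : ℤ) = t % q := by
    refine ⟨(t % q).toNat, ?_⟩
    rw [Int.toNat_of_nonneg]
    exact Int.emod_nonneg _ (by exact_mod_cast hq.ne')
  have hsq : s < q := by
    have : (s : ℤ) < q := by
      rw [hs]
      exact Int.emod_lt_of_pos _ (by exact_mod_cast hq)
    exact_mod_cast this
  have hv : Nat.fib n % q = ((D % q) * ((D % q) * (D % q) + 3 * (s * s))) % q := by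
    have h9 : (Nat.fib n : ZMod q) = (D : ZMod q) * ((D : ZMod q) ^ 2 + 3 * (t : ZMod q) ^ 2) := by
      have := congrArg (Int.cast : ℤ → ZMod q) hn
      push_cast at this
      exact this
    have h10 : (t : ZMod q) = (s : ZMod q) := by
      have h11 : ((s : ℤ) : ZMod q) = ((t % q : ℤ) : ZMod q) := by rw [hs]
      rw [ZMod.intCast_mod] at h11
      rw [← h11, Int.cast_natCast]
    have h12 : (D : ZMod q) = ((D % q : ℕ) : ZMod q) := by rw [ZMod.natCast_mod]
    have h13 : (Nat.fib n : ZMod q) = (((D % q) * ((D % q) * (D % q) + 3 * (s * s)) : ℕ) : ZMod q) := by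
      rw [h9, h10, h12]
      push_cast
      ring
    exact (ZMod.natCast_eq_natCast_iff' _ _ _).1 h13
  have h14 := fa_spec (fa_spec h2 (D % q) (Nat.mod_lt _ hq)) s hsq
  unfold ce at h14
  rw [beq_iff] at h14
  rw [hv] at h8
  have h15 := congrArg (fun x => Nat.testBit x (n % 720)) h14
  have e : ∀ a b : ℕ, Nat.land a b = a &&& b := fun _ _ => rfl
  have e2 : ∀ a b : ℕ, Nat.shiftRight a b = a >>> b := fun _ _ => rfl
  rw [e, Nat.testBit_and, sl_bit hr, h8, Bool.true_and, e2, Nat.testBit_shiftRight] at h15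
  exact h15

/-- the intersection of the masks for `D`, with early termination -/
noncomputable def an (D : ℕ) (l : List (ℕ × ℕ)) : ℕ → ℕ :=
  List.rec (fun acc => acc) (fun h _ ih acc =>
    Nat.rec 0 (fun x _ => ih (Nat.succ x)) (Nat.land acc (Nat.shiftRight h.2 (720 * (D % h.1))))) l

theorem an_nil (D acc : ℕ) : an D [] acc = acc := rfl

theorem an_cons (D : ℕ) (h : ℕ × ℕ) (l : List (ℕ × ℕ)) (acc : ℕ) :
    an D (h :: l) acc = if Nat.land acc (Nat.shiftRight h.2 (720 * (D % h.1))) = 0 then 0 else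
      an D l (Nat.land acc (Nat.shiftRight h.2 (720 * (D % h.1)))) := by
  have e : an D (h :: l) acc = (Nat.rec 0 (fun x _ => an D l (Nat.succ x))
    (Nat.land acc (Nat.shiftRight h.2 (720 * (D % h.1)))) : ℕ) := rfl
  rw [e]
  cases Nat.land acc (Nat.shiftRight h.2 (720 * (D % h.1))) with
  | zero => rfl
  | succ x => rfl

theorem an_bit {D r : ℕ} : ∀ (l : List (ℕ × ℕ)) (acc : ℕ), acc.testBit r = true →
    (∀ h ∈ l, h.2.testBit (720 * (D % h.1) + r) = true) → (an D l acc).testBit r = true := by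
  intro l
  induction l with
  | nil => intro acc h _; exact h
  | cons h l ih =>
    intro acc hacc hl
    have e : ∀ a b : ℕ, Nat.land a b = a &&& b := fun _ _ => rfl
    have e2 : ∀ a b : ℕ, Nat.shiftRight a b = a >>> b := fun _ _ => rfl
    have h1 : (Nat.land acc (Nat.shiftRight h.2 (720 * (D % h.1)))).testBit r = true := by
      rw [e, Nat.testBit_and, hacc, Bool.true_and, e2, Nat.testBit_shiftRight]
      exact hl h List.mem_cons_self
    rw [an_cons]
    rw [if_neg]
    · exact ih _ h1 fun h' hh' => hl h' (List.mem_cons_of_mem _ hh')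
    · intro h0
      rw [h0, Nat.zero_testBit] at h1
      exact absurd h1 (by decide)

/-- `f` is true on `[s, s + 2 ^ k)` -/
noncomputable def al (f : ℕ → Bool) (k : ℕ) : ℕ → Bool :=
  Nat.rec (fun s => f s) (fun k ih s => and (ih s) (ih (s + 2 ^ k))) k

theorem al_spec {f : ℕ → Bool} : ∀ k s : ℕ, al f k s = true → ∀ i, s ≤ i → i < s + 2 ^ k → f i = true := by
  intro k
  induction k with
  | zero =>
    intro s h i h1 h2
    have : i = s := by rw [pow_zero] at h2; omega
    rw [this]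
    exact h
  | succ k ih =>
    intro s h i h1 h2
    have e : al f (k + 1) s = and (al f k s) (al f k (s + 2 ^ k)) := rfl
    rw [e, Bool.and_eq_true] at h
    rcases Nat.lt_or_ge i (s + 2 ^ k) with h3 | h3
    · exact ih s h.1 i h1 h3
    · exact ih (s + 2 ^ k) h.2 i h3 (by rw [pow_succ] at h2; omega)

end Pool.Agent.H90.FB
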