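import Pool.Agent.H90.FB.Bk

/-!
MP_572ea3_nt: the sieve for `0 ≤ D < 65536` (generated).
-/

set_option autoImplicit false
set_option maxRecDepth 100000

namespace Pool.Agent.H90.FB.B0

/-- the exceptional `D` -/
def l : List ℕ := [0, 1, 2, 431, 521, 769, 1537, 3733, 4502, 5473, 5521, 5762, 5893, 5939, 8461, 9992, 10141, 12206, 12274, 13308, 14078, 14362, 16939, 16993, 17048, 18325, 19777, 22466, 22751, 23129, 26101, 26549, 27492, 27901, 28942, 29594, 29809, 30133, 31189, 31254, 33805, 33889, 33973, 34098, 36156, 37201, 39134, 39598, 39922, 40177, 40501, 40741, 40861, 41383, 42046, 42914, 43450, 43669, 44062, 44389, 45394, 45709, 45816, 46258, 46302, 46369, 46568, 47321, 47629, 48959, 49034, 50366, 50488, 50689, 50867, 51011, 51586, 52386, 52453, 52621, 52741, 52958, 53173, 53293, 53569, 53898, 54632, 54925, 55261, 58453, 59701, 59905, 60014, 60373, 61381, 62401, 63313, 63902, 65230]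

/-- the certificates -/
def cs : List (ℕ × List ℕ × ℕ × List (ℕ × ℕ)) := [
  (431, [406, 646], 2, [(47, 32)]),
  (521, [662], 2, [(47, 32)]),
  (769, [161, 559], 7, [(13, 28), (29, 14), (83, 168), (211, 42)]),
  (1537, [257, 463], 7, [(29, 14)]),
  (3733, [199, 521], 2, [(47, 32)]),
  (4502, [294], 7, [(13, 28), (29, 14), (421, 84)]),
  (5473, [17, 703], 2, [(47, 32)]),
  (5521, [199, 521], 2, [(47, 32)]),
  (5762, [174], 2, [(47, 32)]),
  (5893, [319, 401], 7, [(13, 28), (71, 70), (211, 42), (281, 56)]),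
  (5939, [22], 3, [(53, 108)]),
  (8461, [386], 7, [(13, 28), (29, 14), (211, 42)]),
  (9992, [678], 7, [(29, 14), (71, 70), (83, 168), (281, 56)]),
  (10141, [119, 601], 7, [(29, 14), (211, 42)]),
  (12206, [702], 7, [(13, 28), (29, 14), (211, 42)]),
  (12274, [234, 594], 7, [(13, 28), (29, 14), (211, 42), (281, 56)]),
  (13308, [636], 7, [(13, 28), (29, 14), (71, 70), (211, 42)]),
  (14078, [6], 7, [(13, 28), (29, 14), (71, 70)]),
  (14362, [498], 7, [(13, 28), (29, 14), (281, 56)]),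
  (16939, [322], 2, [(47, 32)]),
  (16993, [506], 7, [(13, 28), (29, 14), (281, 56), (421, 84)]),
  (17048, [102, 462], 7, [(13, 28), (29, 14), (71, 70)]),
  (18325, [55, 305, 415, 665], 7, [(13, 28), (29, 14), (211, 42)]),
  (19777, [49, 671], 7, [(13, 28), (29, 14), (71, 70), (211, 42), (281, 56)]),
  (22466, [222, 582], 2, [(47, 32)]),
  (22751, [598], 7, [(29, 14)]),
  (23129, [182], 2, [(47, 32)]),
  (26101, [79, 641], 2, [(47, 32)]),
  (26549, [494], 7, [(29, 14)]),
  (27492, [276], 7, [(29, 14), (281, 56)]),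
  (27901, [386], 7, [(13, 28), (29, 14), (211, 42), (281, 56)]),
  (28942, [138, 498], 7, [(29, 14), (83, 168)]),
  (29594, [174, 534], 7, [(29, 14)]),
  (29809, [98], 7, [(13, 28), (29, 14)]),
  (30133, [103, 257, 463, 617], 7, [(13, 28), (29, 14), (71, 70), (211, 42), (281, 56)]),
  (31189, [137, 151, 209, 223, 497, 511, 569, 583], 2, [(47, 32)]),
  (31254, [276], 7, [(13, 28), (29, 14), (211, 42), (281, 56)]),
  (33805, [215, 505], 7, [(29, 14), (167, 336)]),
  (33889, [319, 401], 2, [(47, 32)]),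
  (33973, [17, 703], 7, [(13, 28), (29, 14), (167, 336), (211, 42), (281, 56)]),
  (34098, [204], 2, [(47, 32)]),
  (36156, [672], 2, [(47, 32)]),
  (37201, [31, 689], 7, [(13, 28), (71, 70), (83, 168), (211, 42), (421, 84)]),
  (39134, [342], 7, [(13, 28), (29, 14), (71, 70)]),
  (39598, [114, 474], 7, [(13, 28), (29, 14)]),
  (39922, [114], 2, [(47, 32)]),
  (40177, [353, 367], 7, [(13, 28), (29, 14), (281, 56), (421, 84)]),
  (40501, [41, 679], 7, [(13, 28), (29, 14), (211, 42), (281, 56)]),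
  (40741, [113, 607], 7, [(13, 28), (29, 14), (211, 42), (281, 56)]),
  (40861, [146, 289, 431], 7, [(29, 14), (421, 84)]),
  (41383, [202], 7, [(29, 14), (281, 56)]),
  (42046, [402], 2, [(47, 32)]),
  (42914, [654], 7, [(13, 28), (29, 14), (71, 70)]),
  (43450, [210], 7, [(13, 28), (29, 14), (211, 42), (281, 56)]),
  (43669, [89, 631], 7, [(13, 28), (29, 14), (211, 42), (281, 56)]),
  (44062, [66], 7, [(13, 28), (29, 14), (167, 336), (281, 56), (421, 84)]),
  (44389, [79, 281, 439, 641], 7, [(13, 28), (29, 14), (211, 42)]),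
  (45394, [474], 2, [(47, 32)]),
  (45709, [169, 191, 529, 551], 7, [(13, 28), (29, 14), (281, 56)]),
  (45816, [48, 192, 408, 552], 7, [(13, 28), (29, 14), (71, 70), (421, 84)]),
  (46258, [186], 7, [(13, 28), (29, 14), (167, 336), (211, 42)]),
  (46302, [204], 7, [(13, 28), (29, 14), (211, 42)]),
  (46369, [434], 7, [(13, 28), (29, 14), (211, 42), (281, 56)]),
  (46568, [366], 7, [(13, 28), (29, 14), (211, 42)]),
  (47321, [398], 7, [(13, 28), (29, 14), (211, 42)]),
  (47629, [698], 7, [(13, 28), (29, 14), (211, 42)]),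
  (48959, [214, 574], 7, [(13, 28), (29, 14), (71, 70), (83, 168)]),
  (49034, [222], 7, [(13, 28), (29, 14), (211, 42), (281, 56)]),
  (50366, [462], 7, [(13, 28), (29, 14), (211, 42)]),
  (50488, [354], 7, [(13, 28), (29, 14), (281, 56)]),
  (50689, [151, 209, 511, 569], 7, [(13, 28), (29, 14), (211, 42), (281, 56)]),
  (50867, [454], 7, [(13, 28), (29, 14), (71, 70), (211, 42)]),
  (51011, [262], 7, [(29, 14), (281, 56)]),
  (51586, [282], 7, [(13, 28), (29, 14), (167, 336), (211, 42)]),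
  (52386, [564], 7, [(13, 28), (29, 14), (211, 42)]),
  (52453, [7, 713], 7, [(13, 28), (29, 14), (211, 42)]),
  (52621, [191, 529], 2, [(47, 32)]),
  (52741, [31, 689], 7, [(13, 28), (29, 14)]),
  (52958, [174], 7, [(13, 28), (29, 14), (211, 42)]),
  (53173, [161, 199, 521, 559], 7, [(13, 28), (29, 14), (211, 42)]),
  (53293, [239, 481], 3, [(53, 108), (109, 108)]),
  (53569, [31, 689], 7, [(13, 28), (211, 42), (281, 56), (421, 84)]),
  (53898, [276], 7, [(13, 28), (29, 14)]),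
  (54632, [174], 7, [(13, 28), (29, 14), (281, 56)]),
  (54925, [335, 385], 7, [(13, 28), (29, 14), (281, 56)]),
  (55261, [359, 361, 362], 7, [(13, 28), (29, 14), (71, 70), (83, 168), (211, 42), (421, 84)]),
  (58453, [161, 559], 7, [(13, 28), (29, 14), (211, 42)]),
  (59701, [113, 607], 7, [(13, 28), (29, 14), (421, 84)]),
  (59905, [185, 535], 2, [(47, 32)]),
  (60014, [222, 582], 7, [(29, 14), (211, 42), (281, 56)]),
  (60373, [137, 583], 2, [(47, 32)]),
  (61381, [281, 439], 7, [(13, 28), (29, 14), (211, 42)]),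
  (62401, [209, 511], 7, [(13, 28), (29, 14), (211, 42), (281, 56)]),
  (63313, [257, 463], 2, [(47, 32)]),
  (63902, [534], 7, [(29, 14)]),
  (65230, [690], 7, [(29, 14), (211, 42), (421, 84)])]

theorem ok : cok l cs = true := by decide +kernel

theorem lp0 : al (f l) 13 0 = true := by decide +kernel

theorem lp1 : al (f l) 13 8192 = true := by decide +kernel

theorem lp2 : al (f l) 13 16384 = true := by decide +kernel

theorem lp3 : al (f l) 13 24576 = true := by decide +kernel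

theorem lp4 : al (f l) 13 32768 = true := by decide +kernel

theorem lp5 : al (f l) 13 40960 = true := by decide +kernel

theorem lp6 : al (f l) 13 49152 = true := by decide +kernel

theorem lp7 : al (f l) 13 57344 = true := by decide +kernel

theorem part {D : ℕ} (h1 : 0 ≤ D) (h2 : D < 65536) (h3 : 3 ≤ D) {n : ℕ} {t : ℤ}
    (hn : (Nat.fib n : ℤ) = D * (D ^ 2 + 3 * t ^ 2)) : False := by
  have h : (0 ≤ D ∧ D < 0 + 2 ^ 13) ∨ (8192 ≤ D ∧ D < 8192 + 2 ^ 13) ∨ (16384 ≤ D ∧ D < 16384 + 2 ^ 13) ∨ (24576 ≤ D ∧ D < 24576 + 2 ^ 13) ∨ (32768 ≤ D ∧ D < 32768 + 2 ^ 13) ∨ (40960 ≤ D ∧ D < 40960 + 2 ^ 13) ∨ (49152 ≤ D ∧ D < 49152 + 2 ^ 13) ∨ (57344 ≤ D ∧ D < 57344 + 2 ^ 13) := by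
    norm_num
    omega
  rcases h with ⟨h4, h5⟩ | ⟨h4, h5⟩ | ⟨h4, h5⟩ | ⟨h4, h5⟩ | ⟨h4, h5⟩ | ⟨h4, h5⟩ | ⟨h4, h5⟩ | ⟨h4, h5⟩
  · exact blk ok lp0 h4 h5 h3 hn
  · exact blk ok lp1 h4 h5 h3 hn
  · exact blk ok lp2 h4 h5 h3 hn
  · exact blk ok lp3 h4 h5 h3 hn
  · exact blk ok lp4 h4 h5 h3 hn
  · exact blk ok lp5 h4 h5 h3 hn
  · exact blk ok lp6 h4 h5 h3 hn
  · exact blk ok lp7 h4 h5 h3 hn

end Pool.Agent.H90.FB.B0
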