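import Pool.Agent.H90.FB.Bk

/-!
MP_572ea3_nt: the sieve for `65536 ≤ D < 131072` (generated).
-/

set_option autoImplicit false
set_option maxRecDepth 100000

namespace Pool.Agent.H90.FB.B1

/-- the exceptional `D` -/
def l : List ℕ := [65662, 67210, 67714, 68053, 69983, 71606, 71623, 71941, 73406, 74234, 74401, 74449, 74698, 76519, 76668, 76807, 76861, 77219, 80317, 81070, 81647, 81898, 81973, 82933, 82945, 83077, 83270, 83557, 87496, 87931, 88476, 89477, 90466, 92737, 93361, 93367, 94376, 95974, 96433, 96721, 96914, 98639, 98701, 99251, 99559, 100753, 101411, 101425, 101482, 101734, 103679, 103776, 104172, 105514, 106184, 106198, 106382, 107281, 107999, 108056, 109909, 110251, 110522, 111998, 112038, 114913, 115018, 116696, 118273, 119897, 121823, 121859, 122629, 122762, 122833, 123209, 124742, 124846, 125574, 126433, 126718, 128302, 130841]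

/-- the certificates -/
def cs : List (ℕ × List ℕ × ℕ × List (ℕ × ℕ)) := [
  (65662, [426], 7, [(13, 28), (29, 14), (281, 56)]),
  (67210, [210], 2, [(47, 32)]),
  (67714, [642], 7, [(13, 28), (29, 14), (71, 70), (211, 42)]),
  (68053, [79, 319, 401, 641], 7, [(13, 28), (29, 14), (211, 42)]),
  (69983, [22], 2, [(47, 32)]),
  (71606, [6], 7, [(13, 28), (29, 14), (211, 42), (281, 56)]),
  (71623, [274, 634], 7, [(29, 14), (71, 70), (83, 168), (211, 42)]),
  (71941, [161, 559], 2, [(47, 32)]),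
  (73406, [558], 7, [(29, 14), (71, 70), (211, 42)]),
  (74234, [174], 2, [(47, 32)]),
  (74401, [47, 673], 2, [(47, 32)]),
  (74449, [199, 521], 7, [(13, 28), (71, 70), (211, 42), (281, 56), (421, 84)]),
  (74698, [162, 306], 7, [(13, 28), (29, 14)]),
  (76519, [274], 7, [(13, 28), (29, 14), (211, 42), (421, 84)]),
  (76668, [204], 7, [(29, 14), (211, 42), (281, 56)]),
  (76807, [586], 2, [(47, 32)]),
  (76861, [602], 7, [(13, 28), (29, 14), (71, 70), (211, 42)]),
  (77219, [478], 2, [(47, 32)]),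
  (80317, [434], 7, [(13, 28), (29, 14), (211, 42)]),
  (81070, [570], 2, [(47, 32)]),
  (81647, [166, 406], 2, [(47, 32)]),
  (81898, [114, 474], 7, [(13, 28), (29, 14), (71, 70), (281, 56)]),
  (81973, [343, 377], 7, [(13, 28), (29, 14), (71, 70)]),
  (82933, [41, 679], 2, [(47, 32)]),
  (82945, [295, 425], 7, [(13, 28), (29, 14), (211, 42)]),
  (83077, [17, 343, 377, 703], 2, [(47, 32)]),
  (83270, [150], 7, [(13, 28), (29, 14), (211, 42), (281, 56)]),
  (83557, [151, 329, 391, 569], 7, [(29, 14), (71, 70)]),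
  (87496, [498], 7, [(13, 28), (29, 14), (211, 42), (281, 56)]),
  (87931, [682], 7, [(13, 28), (29, 14), (71, 70), (211, 42)]),
  (88476, [708], 2, [(47, 32)]),
  (89477, [494], 7, [(13, 28), (29, 14), (71, 70), (211, 42)]),
  (90466, [426], 2, [(47, 32)]),
  (92737, [98], 7, [(13, 28), (29, 14), (211, 42), (281, 56)]),
  (93361, [329, 391], 2, [(47, 32)]),
  (93367, [58], 7, [(13, 28), (29, 14), (211, 42)]),
  (94376, [78], 2, [(47, 32)]),
  (95974, [138], 2, [(47, 32)]),
  (96433, [103, 617], 7, [(29, 14), (281, 56)]),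
  (96721, [79, 641], 7, [(13, 28), (71, 70), (211, 42), (281, 56)]),
  (96914, [78], 2, [(47, 32)]),
  (98639, [694], 7, [(13, 28), (29, 14), (281, 56)]),
  (98701, [191, 529], 7, [(13, 28), (29, 14), (211, 42), (281, 56), (421, 84)]),
  (99251, [46], 7, [(13, 28), (29, 14), (71, 70), (211, 42)]),
  (99559, [322], 7, [(13, 28), (29, 14), (71, 70), (211, 42)]),
  (100753, [47, 673], 7, [(13, 28), (29, 14), (211, 42)]),
  (101411, [718], 7, [(13, 28), (29, 14), (71, 70), (167, 336), (281, 56)]),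
  (101425, [265, 455], 7, [(13, 28), (29, 14), (211, 42), (421, 84)]),
  (101482, [186], 2, [(47, 32)]),
  (101734, [114, 474], 7, [(13, 28), (29, 14), (211, 42), (281, 56)]),
  (103679, [142], 7, [(13, 28), (29, 14), (281, 56)]),
  (103776, [48, 408], 7, [(29, 14)]),
  (104172, [276], 7, [(13, 28), (29, 14), (71, 70)]),
  (105514, [714], 7, [(13, 28), (29, 14), (211, 42), (281, 56)]),
  (106184, [78, 438], 7, [(29, 14)]),
  (106198, [354, 642], 7, [(29, 14), (281, 56)]),
  (106382, [678], 7, [(13, 28), (29, 14), (211, 42), (281, 56)]),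
  (107281, [122], 7, [(13, 28), (29, 14), (71, 70), (211, 42)]),
  (107999, [478], 7, [(29, 14), (211, 42)]),
  (108056, [6], 7, [(13, 28), (29, 14)]),
  (109909, [137, 583], 7, [(13, 28), (29, 14), (211, 42), (281, 56), (421, 84)]),
  (110251, [442], 7, [(13, 28), (29, 14), (83, 168), (211, 42)]),
  (110522, [366], 7, [(13, 28), (29, 14), (211, 42)]),
  (111998, [6], 7, [(29, 14), (83, 168)]),
  (112038, [276], 7, [(13, 28), (29, 14), (71, 70), (211, 42)]),
  (114913, [17, 703], 2, [(47, 32)]),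
  (115018, [66, 426], 7, [(13, 28), (29, 14), (211, 42), (281, 56)]),
  (116696, [102], 2, [(47, 32)]),
  (118273, [137, 583], 7, [(13, 28), (29, 14), (71, 70), (281, 56), (421, 84)]),
  (119897, [254, 614], 2, [(47, 32)]),
  (121823, [406], 7, [(13, 28), (29, 14)]),
  (121859, [22], 7, [(13, 28), (29, 14), (421, 84)]),
  (122629, [257, 463], 7, [(13, 28), (29, 14), (281, 56)]),
  (122762, [6], 7, [(13, 28), (29, 14), (211, 42)]),
  (122833, [103, 617], 2, [(47, 32)]),
  (123209, [422], 7, [(13, 28), (29, 14), (211, 42), (281, 56)]),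
  (124742, [318], 2, [(47, 32)]),
  (124846, [498], 7, [(13, 28), (29, 14), (71, 70), (211, 42)]),
  (125574, [636], 7, [(13, 28), (29, 14), (281, 56)]),
  (126433, [161, 559], 7, [(13, 28), (29, 14), (211, 42)]),
  (126718, [162], 7, [(13, 28), (29, 14), (211, 42), (421, 84)]),
  (128302, [186, 546], 7, [(13, 28), (29, 14), (211, 42)]),
  (130841, [182], 7, [(13, 28), (29, 14), (211, 42)])]

theorem ok : cok l cs = true := by decide +kernel

theorem lp0 : al (f l) 13 65536 = true := by decide +kernel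

theorem lp1 : al (f l) 13 73728 = true := by decide +kernel

theorem lp2 : al (f l) 13 81920 = true := by decide +kernel

theorem lp3 : al (f l) 13 90112 = true := by decide +kernel

theorem lp4 : al (f l) 13 98304 = true := by decide +kernel

theorem lp5 : al (f l) 13 106496 = true := by decide +kernel

theorem lp6 : al (f l) 13 114688 = true := by decide +kernel

theorem lp7 : al (f l) 13 122880 = true := by decide +kernel

theorem part {D : ℕ} (h1 : 65536 ≤ D) (h2 : D < 131072) (h3 : 3 ≤ D) {n : ℕ} {t : ℤ}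
    (hn : (Nat.fib n : ℤ) = D * (D ^ 2 + 3 * t ^ 2)) : False := by
  have h : (65536 ≤ D ∧ D < 65536 + 2 ^ 13) ∨ (73728 ≤ D ∧ D < 73728 + 2 ^ 13) ∨ (81920 ≤ D ∧ D < 81920 + 2 ^ 13) ∨ (90112 ≤ D ∧ D < 90112 + 2 ^ 13) ∨ (98304 ≤ D ∧ D < 98304 + 2 ^ 13) ∨ (106496 ≤ D ∧ D < 106496 + 2 ^ 13) ∨ (114688 ≤ D ∧ D < 114688 + 2 ^ 13) ∨ (122880 ≤ D ∧ D < 122880 + 2 ^ 13) := by
    norm_num
    omega
  rcases h with ⟨h4, h5⟩ | ⟨h4, h5⟩ | ⟨h4, h5⟩ | ⟨h4, h5⟩ | ⟨h4, h5⟩ | ⟨h4, h5⟩ | ⟨h4, h5⟩ | ⟨h4, h5⟩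
  · exact blk ok lp0 h4 h5 h3 hn
  · exact blk ok lp1 h4 h5 h3 hn
  · exact blk ok lp2 h4 h5 h3 hn
  · exact blk ok lp3 h4 h5 h3 hn
  · exact blk ok lp4 h4 h5 h3 hn
  · exact blk ok lp5 h4 h5 h3 hn
  · exact blk ok lp6 h4 h5 h3 hn
  · exact blk ok lp7 h4 h5 h3 hn

end Pool.Agent.H90.FB.B1
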