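import Pool.Agent.H90.FB.Bk

/-!
MP_572ea3_nt: the sieve for `131072 ≤ D < 196608` (generated).
-/

set_option autoImplicit false
set_option maxRecDepth 100000

namespace Pool.Agent.H90.FB.B2

/-- the exceptional `D` -/
def l : List ℕ := [132072, 132757, 133489, 134153, 134293, 134461, 134886, 137077, 137464, 138490, 138709, 139822, 139981, 140929, 141893, 142369, 143047, 143617, 144038, 144146, 144650, 144829, 145007, 145819, 145874, 145933, 146702, 147265, 147493, 147943, 148555, 148830, 150586, 151253, 152485, 152584, 153061, 153127, 155473, 158881, 160382, 160453, 160849, 161066, 161773, 162577, 164107, 165505, 166321, 166375, 166807, 167039, 167759, 168132, 168391, 168821, 168859, 169558, 170138, 170998, 171121, 171866, 172597, 172747, 172945, 172978, 172993, 174109, 174193, 175206, 175862, 177229, 177253, 179369, 179566, 179857, 181333, 181717, 182158, 183026, 183259, 185186, 186911, 188833, 189901, 190033, 190226, 190321, 190909, 191173, 191882, 193304, 194046, 194052, 195446]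

/-- the certificates -/
def cs : List (ℕ × List ℕ × ℕ × List (ℕ × ℕ)) := [
  (132072, [564], 7, [(13, 28), (29, 14), (211, 42), (281, 56)]),
  (132757, [89, 631], 7, [(13, 28), (29, 14), (211, 42), (281, 56)]),
  (133489, [31, 329, 391, 689], 7, [(13, 28), (29, 14), (211, 42)]),
  (134153, [86], 2, [(47, 32)]),
  (134293, [17, 703], 7, [(13, 28), (211, 42), (281, 56)]),
  (134461, [26], 7, [(13, 28), (29, 14), (281, 56), (421, 84)]),
  (134886, [84], 3, [(53, 108)]),
  (137077, [127, 593], 7, [(13, 28), (167, 336), (211, 42)]),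
  (137464, [114, 474], 7, [(13, 28), (29, 14), (71, 70), (421, 84)]),
  (138490, [330, 690], 7, [(29, 14)]),
  (138709, [161, 559], 7, [(13, 28), (29, 14), (211, 42), (281, 56)]),
  (139822, [138, 498], 7, [(13, 28), (29, 14), (281, 56)]),
  (139981, [167, 553], 7, [(13, 28), (29, 14), (211, 42), (281, 56)]),
  (140929, [17, 703], 7, [(29, 14), (71, 70), (281, 56)]),
  (141893, [302], 2, [(47, 32)]),
  (142369, [137, 223, 497, 583], 7, [(29, 14), (211, 42)]),
  (143047, [154], 7, [(13, 28), (29, 14), (71, 70), (281, 56)]),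
  (143617, [223, 497], 7, [(13, 28), (29, 14), (211, 42)]),
  (144038, [222], 7, [(13, 28), (29, 14), (211, 42), (281, 56)]),
  (144146, [6], 7, [(13, 28), (29, 14), (211, 42)]),
  (144650, [150], 7, [(13, 28), (29, 14), (71, 70), (211, 42), (281, 56)]),
  (144829, [698], 7, [(13, 28), (29, 14), (211, 42)]),
  (145007, [286], 7, [(13, 28), (29, 14), (281, 56)]),
  (145819, [538], 7, [(29, 14), (211, 42), (421, 84)]),
  (145874, [678], 7, [(13, 28), (29, 14), (211, 42)]),
  (145933, [313, 407], 2, [(47, 32)]),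
  (146702, [294], 2, [(47, 32)]),
  (147265, [25, 335, 385, 695], 7, [(13, 28), (29, 14), (211, 42), (281, 56)]),
  (147493, [7, 713], 2, [(47, 32)]),
  (147943, [154], 7, [(29, 14)]),
  (148555, [10, 370], 7, [(13, 28), (29, 14), (211, 42), (281, 56)]),
  (148830, [420], 7, [(13, 28), (29, 14), (83, 168), (211, 42), (281, 56)]),
  (150586, [18], 2, [(47, 32)]),
  (151253, [494], 7, [(13, 28), (29, 14), (71, 70), (211, 42), (281, 56)]),
  (152485, [295, 425], 7, [(13, 28), (29, 14), (211, 42), (281, 56)]),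
  (152584, [258], 7, [(29, 14)]),
  (153061, [319, 401], 7, [(13, 28), (29, 14), (211, 42), (281, 56)]),
  (153127, [706], 7, [(13, 28), (29, 14)]),
  (155473, [79, 641], 7, [(29, 14)]),
  (158881, [7, 281, 439, 713], 7, [(13, 28), (29, 14), (71, 70), (167, 336)]),
  (160382, [294], 7, [(13, 28), (29, 14), (167, 336), (281, 56)]),
  (160453, [257, 463], 7, [(13, 28), (29, 14), (211, 42), (421, 84)]),
  (160849, [209, 511], 7, [(13, 28), (29, 14)]),
  (161066, [222], 7, [(29, 14), (281, 56)]),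
  (161773, [241, 479], 7, [(13, 28), (29, 14), (83, 168), (211, 42), (281, 56), (421, 84)]),
  (162577, [137, 583], 7, [(13, 28), (29, 14), (211, 42), (281, 56)]),
  (164107, [226], 7, [(13, 28), (29, 14), (211, 42)]),
  (165505, [295, 425], 3, [(53, 108), (109, 108)]),
  (166321, [31, 689], 7, [(13, 28), (211, 42), (281, 56)]),
  (166375, [130], 7, [(13, 28), (29, 14), (71, 70), (281, 56)]),
  (166807, [274], 2, [(47, 32)]),
  (167039, [214], 7, [(13, 28), (29, 14), (421, 84)]),
  (167759, [454], 7, [(13, 28), (29, 14), (211, 42)]),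
  (168132, [84], 7, [(13, 28), (29, 14), (71, 70), (281, 56)]),
  (168391, [178, 298, 538, 658], 7, [(13, 28), (29, 14), (211, 42), (281, 56)]),
  (168821, [62], 7, [(13, 28), (29, 14), (211, 42)]),
  (168859, [514], 7, [(29, 14), (71, 70)]),
  (169558, [162], 7, [(13, 28), (29, 14), (71, 70), (281, 56)]),
  (170138, [222], 2, [(47, 32)]),
  (170998, [66, 426], 7, [(29, 14)]),
  (171121, [127, 593], 7, [(13, 28), (29, 14), (211, 42)]),
  (171866, [678], 7, [(13, 28), (29, 14), (211, 42), (281, 56), (421, 84)]),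
  (172597, [127, 593], 7, [(29, 14), (211, 42), (421, 84)]),
  (172747, [274], 7, [(13, 28), (29, 14), (211, 42)]),
  (172945, [145, 575], 7, [(13, 28), (29, 14), (71, 70)]),
  (172978, [114], 7, [(13, 28), (29, 14)]),
  (172993, [79, 641], 7, [(29, 14), (211, 42)]),
  (174109, [121, 599], 7, [(13, 28), (29, 14), (281, 56)]),
  (174193, [119, 601], 7, [(13, 28), (29, 14), (211, 42)]),
  (175206, [84], 7, [(13, 28), (29, 14), (167, 336), (211, 42), (281, 56)]),
  (175862, [246], 7, [(13, 28), (29, 14), (71, 70), (211, 42)]),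
  (177229, [242], 7, [(13, 28), (29, 14)]),
  (177253, [281, 439], 7, [(13, 28), (29, 14), (211, 42)]),
  (179369, [398], 7, [(13, 28), (29, 14), (211, 42)]),
  (179566, [498], 2, [(47, 32)]),
  (179857, [113, 247, 473, 607], 7, [(13, 28), (29, 14), (211, 42), (281, 56)]),
  (181333, [79, 281, 439, 641], 3, [(53, 108), (109, 108)]),
  (181717, [127, 593], 7, [(13, 28), (29, 14), (211, 42)]),
  (182158, [282], 7, [(13, 28), (29, 14), (71, 70)]),
  (183026, [6, 366], 7, [(13, 28), (29, 14), (211, 42)]),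
  (183259, [82], 7, [(29, 14), (71, 70), (211, 42), (281, 56)]),
  (185186, [222], 7, [(13, 28), (29, 14), (211, 42), (421, 84)]),
  (186911, [502], 2, [(47, 32)]),
  (188833, [161, 559], 7, [(13, 28), (29, 14), (211, 42), (281, 56)]),
  (189901, [242], 2, [(47, 32)]),
  (190033, [103, 617], 7, [(13, 28), (29, 14), (211, 42), (421, 84)]),
  (190226, [318], 7, [(29, 14)]),
  (190321, [169, 191, 529, 551], 7, [(13, 28), (71, 70), (211, 42), (281, 56)]),
  (190909, [314, 674], 7, [(13, 28), (29, 14), (211, 42), (281, 56)]),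
  (191173, [257, 463], 7, [(13, 28), (29, 14), (281, 56)]),
  (191882, [174, 534], 7, [(13, 28), (29, 14), (211, 42), (281, 56)]),
  (193304, [462], 7, [(13, 28), (29, 14), (211, 42), (281, 56)]),
  (194046, [564], 7, [(13, 28), (29, 14), (71, 70), (211, 42)]),
  (194052, [372], 7, [(13, 28), (29, 14), (71, 70)]),
  (195446, [222, 582], 7, [(29, 14)])]

theorem ok : cok l cs = true := by decide +kernel

theorem lp0 : al (f l) 13 131072 = true := by decide +kernel

theorem lp1 : al (f l) 13 139264 = true := by decide +kernel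

theorem lp2 : al (f l) 13 147456 = true := by decide +kernel

theorem lp3 : al (f l) 13 155648 = true := by decide +kernel

theorem lp4 : al (f l) 13 163840 = true := by decide +kernel

theorem lp5 : al (f l) 13 172032 = true := by decide +kernel

theorem lp6 : al (f l) 13 180224 = true := by decide +kernel

theorem lp7 : al (f l) 13 188416 = true := by decide +kernel

theorem part {D : ℕ} (h1 : 131072 ≤ D) (h2 : D < 196608) (h3 : 3 ≤ D) {n : ℕ} {t : ℤ}
    (hn : (Nat.fib n : ℤ) = D * (D ^ 2 + 3 * t ^ 2)) : False := by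
  have h : (131072 ≤ D ∧ D < 131072 + 2 ^ 13) ∨ (139264 ≤ D ∧ D < 139264 + 2 ^ 13) ∨ (147456 ≤ D ∧ D < 147456 + 2 ^ 13) ∨ (155648 ≤ D ∧ D < 155648 + 2 ^ 13) ∨ (163840 ≤ D ∧ D < 163840 + 2 ^ 13) ∨ (172032 ≤ D ∧ D < 172032 + 2 ^ 13) ∨ (180224 ≤ D ∧ D < 180224 + 2 ^ 13) ∨ (188416 ≤ D ∧ D < 188416 + 2 ^ 13) := by
    norm_num
    omega
  rcases h with ⟨h4, h5⟩ | ⟨h4, h5⟩ | ⟨h4, h5⟩ | ⟨h4, h5⟩ | ⟨h4, h5⟩ | ⟨h4, h5⟩ | ⟨h4, h5⟩ | ⟨h4, h5⟩
  · exact blk ok lp0 h4 h5 h3 hn
  · exact blk ok lp1 h4 h5 h3 hn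
  · exact blk ok lp2 h4 h5 h3 hn
  · exact blk ok lp3 h4 h5 h3 hn
  · exact blk ok lp4 h4 h5 h3 hn
  · exact blk ok lp5 h4 h5 h3 hn
  · exact blk ok lp6 h4 h5 h3 hn
  · exact blk ok lp7 h4 h5 h3 hn

end Pool.Agent.H90.FB.B2
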