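import Pool.Agent.H90.FB.Bk

/-!
MP_572ea3_nt: the sieve for `196608 ≤ D < 262144` (generated).
-/

set_option autoImplicit false
set_option maxRecDepth 100000

namespace Pool.Agent.H90.FB.B3

/-- the exceptional `D` -/
def l : List ℕ := [196738, 196793, 197941, 199334, 199349, 199621, 201599, 201601, 201853, 202357, 202822, 203089, 203226, 203617, 203628, 204767, 205001, 206138, 207457, 207754, 208442, 209411, 209987, 212389, 212489, 213842, 214019, 215029, 215857, 216394, 216920, 217621, 218159, 219853, 220321, 220966, 221707, 222337, 222679, 223638, 223933, 224731, 224772, 225408, 226596, 226609, 226834, 228037, 228527, 228721, 229717, 229765, 230509, 230586, 230597, 231037, 231697, 232753, 233941, 236216, 236503, 236641, 237710, 237887, 237943, 238818, 239521, 240049, 240721, 245699, 245914, 246242, 246872, 248161, 248461, 248532, 249118, 249349, 249607, 250225, 251197, 253639, 254539, 254558, 256849, 257617, 257848, 258193, 258414, 259558, 259598, 259667, 260894, 261682,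 261937, 262079]

/-- the certificates -/
def cs : List (ℕ × List ℕ × ℕ × List (ℕ × ℕ)) := [
  (196738, [474], 2, [(47, 32)]),
  (196793, [206], 2, [(47, 32)]),
  (197941, [319, 401], 7, [(13, 28), (29, 14), (281, 56)]),
  (199334, [534], 7, [(13, 28), (29, 14), (211, 42), (281, 56)]),
  (199349, [38], 7, [(29, 14), (211, 42), (281, 56)]),
  (199621, [89, 631], 7, [(13, 28), (29, 14), (211, 42), (281, 56), (421, 84)]),
  (201599, [94], 2, [(47, 32)]),
  (201601, [161, 559], 7, [(13, 28), (29, 14), (71, 70), (211, 42), (281, 56)]),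
  (201853, [386], 7, [(29, 14), (211, 42)]),
  (202357, [353, 367], 7, [(13, 28), (29, 14), (71, 70), (83, 168), (211, 42), (421, 84)]),
  (202822, [714], 7, [(13, 28), (29, 14), (281, 56)]),
  (203089, [311, 409], 2, [(47, 32)]),
  (203226, [492], 7, [(13, 28), (29, 14), (281, 56)]),
  (203617, [137, 583], 7, [(29, 14), (71, 70)]),
  (203628, [516], 2, [(47, 32)]),
  (204767, [238], 7, [(13, 28), (29, 14), (211, 42)]),
  (205001, [86], 7, [(29, 14), (211, 42)]),
  (206138, [606], 2, [(47, 32)]),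
  (207457, [223, 497], 7, [(29, 14), (211, 42)]),
  (207754, [474], 7, [(13, 28), (29, 14), (211, 42)]),
  (208442, [438], 7, [(13, 28), (29, 14)]),
  (209411, [238, 598], 7, [(13, 28), (29, 14), (211, 42), (281, 56)]),
  (209987, [454], 2, [(47, 32)]),
  (212389, [343, 377], 7, [(13, 28), (29, 14), (211, 42), (281, 56)]),
  (212489, [158], 2, [(47, 32)]),
  (213842, [534], 2, [(47, 32)]),
  (214019, [478], 2, [(47, 32)]),
  (215029, [271, 449], 2, [(47, 32)]),
  (215857, [674], 7, [(13, 28), (29, 14), (211, 42), (421, 84)]),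
  (216394, [258], 7, [(13, 28), (29, 14), (71, 70)]),
  (216920, [270], 7, [(29, 14), (71, 70)]),
  (217621, [281, 439], 7, [(13, 28), (29, 14), (211, 42)]),
  (218159, [22, 382, 598], 7, [(29, 14), (71, 70), (211, 42), (281, 56), (421, 84)]),
  (219853, [359, 361, 362], 7, [(13, 28), (29, 14), (83, 168)]),
  (220321, [386], 7, [(13, 28), (29, 14), (211, 42), (281, 56)]),
  (220966, [306], 2, [(47, 32)]),
  (221707, [394], 2, [(47, 32)]),
  (222337, [257, 463], 7, [(13, 28), (71, 70), (211, 42), (281, 56)]),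
  (222679, [34, 274], 7, [(13, 28), (29, 14), (211, 42)]),
  (223638, [204], 7, [(13, 28), (29, 14), (71, 70)]),
  (223933, [337, 383], 7, [(13, 28), (29, 14), (71, 70), (281, 56)]),
  (224731, [202], 7, [(13, 28), (29, 14)]),
  (224772, [204], 2, [(47, 32)]),
  (225408, [156], 7, [(29, 14), (71, 70), (211, 42)]),
  (226596, [672], 2, [(47, 32)]),
  (226609, [191, 529], 7, [(13, 28), (29, 14), (83, 168), (211, 42)]),
  (226834, [474], 7, [(13, 28), (29, 14), (211, 42), (281, 56)]),
  (228037, [103, 617], 2, [(47, 32)]),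
  (228527, [334], 7, [(13, 28), (29, 14)]),
  (228721, [49, 239, 311, 409, 481, 671], 2, [(47, 32)]),
  (229717, [271, 449], 2, [(47, 32)]),
  (229765, [295, 425], 7, [(13, 28), (29, 14), (211, 42), (281, 56)]),
  (230509, [554], 7, [(13, 28), (29, 14), (281, 56)]),
  (230586, [708], 7, [(29, 14), (71, 70), (281, 56), (421, 84)]),
  (230597, [158, 518], 7, [(13, 28), (29, 14), (83, 168)]),
  (231037, [191, 529], 7, [(13, 28), (71, 70), (211, 42), (281, 56)]),
  (231697, [71, 218, 649], 7, [(13, 28), (29, 14), (211, 42)]),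
  (232753, [79, 641], 7, [(13, 28), (29, 14), (71, 70), (83, 168), (211, 42), (421, 84)]),
  (233941, [79, 641], 7, [(13, 28), (29, 14), (281, 56)]),
  (236216, [366], 7, [(13, 28), (29, 14), (211, 42), (281, 56)]),
  (236503, [466], 7, [(29, 14), (71, 70), (211, 42), (281, 56)]),
  (236641, [281, 439], 7, [(13, 28), (29, 14), (71, 70), (211, 42)]),
  (237710, [30], 2, [(47, 32)]),
  (237887, [238], 7, [(29, 14), (211, 42)]),
  (237943, [586], 7, [(13, 28), (29, 14), (71, 70), (281, 56), (421, 84)]),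
  (238818, [84], 7, [(13, 28), (29, 14), (211, 42), (281, 56)]),
  (239521, [271, 449], 7, [(13, 28), (29, 14), (211, 42), (421, 84)]),
  (240049, [103, 617], 2, [(47, 32)]),
  (240721, [79, 281, 439, 641], 7, [(13, 28), (29, 14)]),
  (245699, [118, 358], 7, [(13, 28), (29, 14), (211, 42)]),
  (245914, [282], 7, [(13, 28), (29, 14), (281, 56), (421, 84)]),
  (246242, [438], 2, [(47, 32)]),
  (246872, [318], 2, [(47, 32)]),
  (248161, [49, 311, 409, 671], 7, [(29, 14), (71, 70)]),
  (248461, [47, 313, 407, 673], 2, [(47, 32)]),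
  (248532, [204], 3, [(53, 108), (109, 108)]),
  (249118, [522], 7, [(13, 28), (29, 14), (211, 42)]),
  (249349, [41, 319, 401, 679], 7, [(13, 28), (29, 14), (211, 42)]),
  (249607, [514], 7, [(13, 28), (29, 14), (83, 168), (211, 42)]),
  (250225, [65, 655], 7, [(13, 28), (29, 14), (71, 70), (211, 42)]),
  (251197, [263, 457], 7, [(13, 28), (29, 14), (71, 70), (211, 42)]),
  (253639, [322], 7, [(13, 28), (29, 14), (211, 42), (281, 56)]),
  (254539, [682], 7, [(13, 28), (29, 14), (211, 42)]),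
  (254558, [342], 7, [(13, 28), (29, 14), (71, 70), (211, 42)]),
  (256849, [169, 551], 7, [(13, 28), (29, 14), (71, 70), (167, 336), (281, 56)]),
  (257617, [7, 713], 7, [(13, 28), (29, 14), (211, 42), (281, 56)]),
  (257848, [114], 7, [(13, 28), (29, 14), (211, 42)]),
  (258193, [247, 473], 2, [(47, 32)]),
  (258414, [348], 7, [(13, 28), (29, 14)]),
  (259558, [546], 7, [(13, 28), (29, 14)]),
  (259598, [174], 3, [(53, 108), (109, 108)]),
  (259667, [118], 2, [(47, 32)]),
  (260894, [318], 11, [(43, 88), (89, 44), (199, 22), (307, 88), (331, 110)]),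
  (261682, [546], 7, [(29, 14)]),
  (261937, [137, 583], 7, [(13, 28), (29, 14)]),
  (262079, [358], 7, [(13, 28), (29, 14), (421, 84)])]

theorem ok : cok l cs = true := by decide +kernel

theorem lp0 : al (f l) 13 196608 = true := by decide +kernel

theorem lp1 : al (f l) 13 204800 = true := by decide +kernel

theorem lp2 : al (f l) 13 212992 = true := by decide +kernel

theorem lp3 : al (f l) 13 221184 = true := by decide +kernel

theorem lp4 : al (f l) 13 229376 = true := by decide +kernel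

theorem lp5 : al (f l) 13 237568 = true := by decide +kernel

theorem lp6 : al (f l) 13 245760 = true := by decide +kernel

theorem lp7 : al (f l) 13 253952 = true := by decide +kernel

theorem part {D : ℕ} (h1 : 196608 ≤ D) (h2 : D < 262144) (h3 : 3 ≤ D) {n : ℕ} {t : ℤ}
    (hn : (Nat.fib n : ℤ) = D * (D ^ 2 + 3 * t ^ 2)) : False := by
  have h : (196608 ≤ D ∧ D < 196608 + 2 ^ 13) ∨ (204800 ≤ D ∧ D < 204800 + 2 ^ 13) ∨ (212992 ≤ D ∧ D < 212992 + 2 ^ 13) ∨ (221184 ≤ D ∧ D < 221184 + 2 ^ 13) ∨ (229376 ≤ D ∧ D < 229376 + 2 ^ 13) ∨ (237568 ≤ D ∧ D < 237568 + 2 ^ 13) ∨ (245760 ≤ D ∧ D < 245760 + 2 ^ 13) ∨ (253952 ≤ D ∧ D < 253952 + 2 ^ 13) := by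
    norm_num
    omega
  rcases h with ⟨h4, h5⟩ | ⟨h4, h5⟩ | ⟨h4, h5⟩ | ⟨h4, h5⟩ | ⟨h4, h5⟩ | ⟨h4, h5⟩ | ⟨h4, h5⟩ | ⟨h4, h5⟩
  · exact blk ok lp0 h4 h5 h3 hn
  · exact blk ok lp1 h4 h5 h3 hn
  · exact blk ok lp2 h4 h5 h3 hn
  · exact blk ok lp3 h4 h5 h3 hn
  · exact blk ok lp4 h4 h5 h3 hn
  · exact blk ok lp5 h4 h5 h3 hn
  · exact blk ok lp6 h4 h5 h3 hn
  · exact blk ok lp7 h4 h5 h3 hn

end Pool.Agent.H90.FB.B3
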