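import Pool.Agent.H90.FB.Bk

/-!
MP_572ea3_nt: the sieve for `458752 ≤ D < 524288` (generated).
-/

set_option autoImplicit false
set_option maxRecDepth 100000

namespace Pool.Agent.H90.FB.B7

/-- the exceptional `D` -/
def l : List ℕ := [459169, 461522, 463066, 463489, 464725, 465672, 465841, 466069, 466237, 466933, 468289, 468709, 469254, 469298, 469429, 469586, 469878, 470248, 472697, 473749, 475117, 475297, 476484, 476977, 477781, 478897, 478993, 480958, 481357, 481909, 481969, 483601, 483649, 484837, 485638, 487007, 487429, 487874, 488833, 489059, 489457, 490718, 491398, 491413, 491485, 491569, 492479, 492865, 493634, 494113, 495218, 495301, 495757, 495794, 496978, 497377, 497509, 498097, 499718, 500056, 500209, 500389, 501576, 502069, 503214, 505294, 505474, 505727, 506689, 507368, 507923, 509848, 510373, 510479, 510733, 511579, 511720, 512821, 513102, 514446, 515917, 518821, 519263, 519641, 520649, 521089, 521137, 521281, 522002, 523729, 524158]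

/-- the certificates -/
def cs : List (ℕ × List ℕ × ℕ × List (ℕ × ℕ)) := [
  (459169, [281, 439], 7, [(13, 28), (29, 14), (211, 42)]),
  (461522, [294], 7, [(13, 28), (29, 14), (167, 336)]),
  (463066, [282, 642], 7, [(13, 28), (29, 14), (211, 42), (281, 56)]),
  (463489, [79, 641], 7, [(13, 28), (29, 14), (211, 42)]),
  (464725, [305, 415], 7, [(29, 14)]),
  (465672, [12, 156], 7, [(13, 28), (29, 14), (281, 56)]),
  (465841, [266], 7, [(29, 14)]),
  (466069, [31, 329, 391, 689], 7, [(13, 28), (29, 14), (211, 42), (281, 56)]),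
  (466237, [26, 266, 386, 626], 7, [(13, 28), (29, 14), (211, 42)]),
  (466933, [257, 463], 7, [(29, 14)]),
  (468289, [194, 554], 7, [(13, 28), (29, 14), (83, 168), (281, 56)]),
  (468709, [151, 569], 2, [(47, 32)]),
  (469254, [156], 7, [(13, 28), (29, 14), (83, 168), (211, 42), (281, 56)]),
  (469298, [606], 7, [(13, 28), (29, 14), (281, 56)]),
  (469429, [223, 497], 7, [(13, 28), (71, 70), (211, 42), (281, 56)]),
  (469586, [318], 7, [(13, 28), (29, 14)]),
  (469878, [276], 7, [(13, 28), (29, 14), (211, 42)]),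
  (470248, [426], 7, [(13, 28), (29, 14), (211, 42)]),
  (472697, [566], 7, [(13, 28), (29, 14), (71, 70), (281, 56)]),
  (473749, [151, 329, 391, 569], 7, [(13, 28), (29, 14), (281, 56)]),
  (475117, [313, 407], 7, [(13, 28), (29, 14), (211, 42), (281, 56)]),
  (475297, [31, 689], 7, [(13, 28), (29, 14), (71, 70)]),
  (476484, [636], 7, [(29, 14)]),
  (476977, [223, 497], 2, [(47, 32)]),
  (477781, [161, 559], 2, [(47, 32)]),
  (478897, [169, 551], 7, [(29, 14), (211, 42)]),
  (478993, [281, 439], 7, [(29, 14)]),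
  (480958, [66, 426], 7, [(13, 28), (29, 14), (83, 168), (211, 42)]),
  (481357, [146], 7, [(29, 14)]),
  (481909, [41, 679], 7, [(13, 28), (29, 14), (211, 42)]),
  (481969, [242], 2, [(47, 32)]),
  (483601, [7, 151, 353, 367, 569, 713], 7, [(13, 28), (29, 14), (281, 56)]),
  (483649, [161, 559], 2, [(47, 32)]),
  (484837, [103, 617], 7, [(13, 28), (29, 14), (211, 42)]),
  (485638, [282], 7, [(13, 28), (29, 14), (71, 70)]),
  (487007, [214, 454], 7, [(13, 28), (29, 14), (71, 70), (211, 42)]),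
  (487429, [103, 617], 7, [(13, 28), (29, 14), (211, 42)]),
  (487874, [174], 7, [(13, 28), (29, 14), (211, 42)]),
  (488833, [97, 241, 479, 623], 7, [(13, 28), (29, 14), (71, 70), (211, 42), (421, 84)]),
  (489059, [382], 7, [(13, 28), (29, 14), (71, 70), (211, 42)]),
  (489457, [31, 689], 7, [(13, 28), (29, 14), (211, 42), (281, 56), (421, 84)]),
  (490718, [462], 7, [(13, 28), (29, 14), (211, 42)]),
  (491398, [354], 7, [(13, 28), (29, 14), (83, 168), (211, 42)]),
  (491413, [281, 439], 2, [(47, 32)]),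
  (491485, [265, 455], 7, [(13, 28), (29, 14), (211, 42), (281, 56), (421, 84)]),
  (491569, [89, 631], 7, [(13, 28), (29, 14)]),
  (492479, [574], 7, [(13, 28), (29, 14)]),
  (492865, [25, 695], 7, [(13, 28), (29, 14), (71, 70), (211, 42)]),
  (493634, [222], 11, [(43, 88), (89, 44), (199, 22)]),
  (494113, [23, 697], 2, [(47, 32)]),
  (495218, [6, 366], 7, [(29, 14)]),
  (495301, [161, 559], 7, [(13, 28), (29, 14), (83, 168), (281, 56), (421, 84)]),
  (495757, [146, 506], 7, [(13, 28), (29, 14), (211, 42)]),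
  (495794, [654], 7, [(13, 28), (29, 14)]),
  (496978, [162], 2, [(47, 32)]),
  (497377, [31, 689], 7, [(13, 28), (29, 14), (211, 42), (281, 56)]),
  (497509, [209, 511], 7, [(13, 28), (29, 14), (71, 70), (167, 336), (211, 42), (281, 56)]),
  (498097, [194], 7, [(29, 14), (211, 42)]),
  (499718, [222], 7, [(13, 28), (29, 14), (211, 42)]),
  (500056, [186], 7, [(13, 28), (29, 14), (281, 56)]),
  (500209, [223, 497], 7, [(13, 28), (29, 14), (71, 70), (281, 56)]),
  (500389, [79, 281, 439, 641], 7, [(13, 28), (83, 168), (211, 42), (281, 56)]),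
  (501576, [564], 7, [(13, 28), (29, 14), (71, 70), (281, 56)]),
  (502069, [223, 497], 7, [(13, 28), (29, 14), (281, 56)]),
  (503214, [132], 2, [(47, 32)]),
  (505294, [114], 7, [(13, 28), (29, 14), (211, 42), (281, 56)]),
  (505474, [354], 7, [(13, 28), (29, 14), (211, 42)]),
  (505727, [238, 334], 7, [(13, 28), (29, 14), (211, 42)]),
  (506689, [137, 583], 7, [(13, 28), (29, 14), (211, 42), (281, 56)]),
  (507368, [534], 7, [(13, 28), (29, 14), (211, 42)]),
  (507923, [214, 574], 7, [(13, 28), (29, 14)]),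
  (509848, [474], 2, [(47, 32)]),
  (510373, [7, 713], 2, [(47, 32)]),
  (510479, [598], 7, [(13, 28), (29, 14), (281, 56)]),
  (510733, [26, 266], 7, [(29, 14)]),
  (511579, [274], 2, [(47, 32)]),
  (511720, [330, 690], 7, [(29, 14)]),
  (512821, [89, 631], 7, [(13, 28), (29, 14), (71, 70), (211, 42), (281, 56)]),
  (513102, [156], 7, [(13, 28), (29, 14), (211, 42)]),
  (514446, [204], 7, [(29, 14)]),
  (515917, [314], 7, [(13, 28), (29, 14), (211, 42)]),
  (518821, [127, 593], 7, [(13, 28), (29, 14), (211, 42), (281, 56)]),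
  (519263, [382], 7, [(13, 28), (29, 14), (71, 70), (211, 42), (281, 56)]),
  (519641, [302], 7, [(13, 28), (29, 14), (281, 56)]),
  (520649, [14], 7, [(13, 28), (29, 14), (71, 70), (211, 42)]),
  (521089, [31, 329, 391, 689], 2, [(47, 32)]),
  (521137, [223, 497], 7, [(13, 28), (29, 14), (211, 42), (281, 56)]),
  (521281, [386], 2, [(47, 32)]),
  (522002, [486], 7, [(13, 28), (29, 14)]),
  (523729, [223, 497], 7, [(13, 28), (29, 14), (211, 42)]),
  (524158, [354], 7, [(13, 28), (29, 14), (211, 42), (421, 84)])]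

theorem ok : cok l cs = true := by decide +kernel

theorem lp0 : al (f l) 13 458752 = true := by decide +kernel

theorem lp1 : al (f l) 13 466944 = true := by decide +kernel

theorem lp2 : al (f l) 13 475136 = true := by decide +kernel

theorem lp3 : al (f l) 13 483328 = true := by decide +kernel

theorem lp4 : al (f l) 13 491520 = true := by decide +kernel

theorem lp5 : al (f l) 13 499712 = true := by decide +kernel

theorem lp6 : al (f l) 13 507904 = true := by decide +kernel

theorem lp7 : al (f l) 13 516096 = true := by decide +kernel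

theorem part {D : ℕ} (h1 : 458752 ≤ D) (h2 : D < 524288) (h3 : 3 ≤ D) {n : ℕ} {t : ℤ}
    (hn : (Nat.fib n : ℤ) = D * (D ^ 2 + 3 * t ^ 2)) : False := by
  have h : (458752 ≤ D ∧ D < 458752 + 2 ^ 13) ∨ (466944 ≤ D ∧ D < 466944 + 2 ^ 13) ∨ (475136 ≤ D ∧ D < 475136 + 2 ^ 13) ∨ (483328 ≤ D ∧ D < 483328 + 2 ^ 13) ∨ (491520 ≤ D ∧ D < 491520 + 2 ^ 13) ∨ (499712 ≤ D ∧ D < 499712 + 2 ^ 13) ∨ (507904 ≤ D ∧ D < 507904 + 2 ^ 13) ∨ (516096 ≤ D ∧ D < 516096 + 2 ^ 13) := by
    norm_num
    omega
  rcases h with ⟨h4, h5⟩ | ⟨h4, h5⟩ | ⟨h4, h5⟩ | ⟨h4, h5⟩ | ⟨h4, h5⟩ | ⟨h4, h5⟩ | ⟨h4, h5⟩ | ⟨h4, h5⟩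
  · exact blk ok lp0 h4 h5 h3 hn
  · exact blk ok lp1 h4 h5 h3 hn
  · exact blk ok lp2 h4 h5 h3 hn
  · exact blk ok lp3 h4 h5 h3 hn
  · exact blk ok lp4 h4 h5 h3 hn
  · exact blk ok lp5 h4 h5 h3 hn
  · exact blk ok lp6 h4 h5 h3 hn
  · exact blk ok lp7 h4 h5 h3 hn

end Pool.Agent.H90.FB.B7
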