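import Pool.Agent.H90.FB.D2
import Pool.Agent.H90.FB.L0
import Pool.Agent.H90.FB.L1
import Pool.Agent.H90.FB.L2
import Pool.Agent.H90.FB.L3
import Pool.Agent.H90.FB.L4
import Pool.Agent.H90.FB.L5
import Pool.Agent.H90.FB.L6
import Pool.Agent.H90.FB.L7

/-!
MP_572ea3_nt: `2 F n = x ^ 3 + y ^ 3` with `x + y ≤ 10 ^ 6`, or with `F n = c m`, `c ≤ 500000`, all prime factors of `m` above the cube root of `F n`.
-/

set_option autoImplicit false
set_option maxRecDepth 100000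

namespace Pool.Agent.H90.FB

open H21FC

theorem no_large {D : ℕ} (h3 : 3 ≤ D) (hD : D < 2 ^ 19) {n : ℕ} {t : ℤ}
    (hn : (Nat.fib n : ℤ) = D * (D ^ 2 + 3 * t ^ 2)) : False := by
  norm_num at hD
  have h : (0 ≤ D ∧ D < 65536) ∨ (65536 ≤ D ∧ D < 131072) ∨ (131072 ≤ D ∧ D < 196608) ∨
      (196608 ≤ D ∧ D < 262144) ∨ (262144 ≤ D ∧ D < 327680) ∨ (327680 ≤ D ∧ D < 393216) ∨
      (393216 ≤ D ∧ D < 458752) ∨ (458752 ≤ D ∧ D < 524288) := by omega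
  rcases h with ⟨h1, h2⟩ | ⟨h1, h2⟩ | ⟨h1, h2⟩ | ⟨h1, h2⟩ | ⟨h1, h2⟩ | ⟨h1, h2⟩ | ⟨h1, h2⟩ | ⟨h1, h2⟩
  · exact B0.part h1 h2 h3 hn
  · exact B1.part h1 h2 h3 hn
  · exact B2.part h1 h2 h3 hn
  · exact B3.part h1 h2 h3 hn
  · exact B4.part h1 h2 h3 hn
  · exact B5.part h1 h2 h3 hn
  · exact B6.part h1 h2 h3 hn
  · exact B7.part h1 h2 h3 hn

theorem d2 : Nat.beq (an 2 tabs full) (2 ^ 6) = true := by decide +kernel

theorem six {n : ℕ} {t : ℤ} (hn : (Nat.fib n : ℤ) = (2 : ℕ) * (((2 : ℕ) : ℤ) ^ 2 + 3 * t ^ 2)) : n = 6 := by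
  have h1 := an_surv hn
  rw [beq_iff.1 d2, Nat.testBit_two_pow, decide_eq_true_eq] at h1
  by_contra hne
  obtain ⟨j, hj, hj0⟩ : ∃ j, n = 6 + 16 * j ∧ 0 < j := ⟨(n - 6) / 16, by omega, by omega⟩
  obtain ⟨s, k, hk, hjk⟩ := Nat.exists_eq_two_pow_mul_odd hj0.ne'
  have hE : Even (2 ^ (s + 3)) := ⟨2 ^ (s + 2), by ring⟩
  have h2 := F_mul hE 6 k
  have e : 6 + 2 * 2 ^ (s + 3) * k = n := by rw [hj, hjk]; ring
  have h6 : F 6 = 8 := by
    unfold F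
    norm_num [Nat.fib_add_two]
  rw [e, hk.neg_one_pow, h6] at h2
  have hF : F n = 2 * (2 ^ 2 + 3 * t ^ 2) := by
    unfold F
    rw [hn]
    push_cast
    ring
  obtain ⟨N, hN⟩ := Int.eq_ofNat_of_zero_le (L_pos (2 ^ (s + 3))).le
  have h3 := L_pow s
  rw [hN] at h3 h2
  refine no_six (N := N) (T := t) (by omega) ?_
  have e2 : 6 * t ^ 2 + 16 = F n - -1 * 8 := by rw [hF]; ring
  rw [e2]
  exact h2

/-- the form `F n = D (D ^ 2 + 3 t ^ 2)` with `2 D = x + y` -/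
theorem form {n : ℕ} (hn : 0 < n) {x y : ℤ} (h : 2 * (Nat.fib n : ℤ) = x ^ 3 + y ^ 3) :
    ∃ (D : ℕ) (t : ℤ), 0 < D ∧ x + y = 2 * D ∧ (Nat.fib n : ℤ) = D * (D ^ 2 + 3 * t ^ 2) := by
  have h0 := sum_pos hn h
  have hpar : (x + y) % 2 = 0 := by
    have e : x ^ 3 + y ^ 3 = (x + y) * (x ^ 2 - x * y + y ^ 2) := by ring
    have h1 : (x ^ 3 - x) % 2 = 0 := by
      have e2 : x ^ 3 - x = (x * (x - 1)) * (x + 1) := by ring
      obtain ⟨r, hr⟩ := Int.even_mul_pred_self x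
      rw [e2, hr]
      have e3 : (r + r) * (x + 1) = 2 * (r * (x + 1)) := by ring
      rw [e3]
      omega
    have h2 : (y ^ 3 - y) % 2 = 0 := by
      have e2 : y ^ 3 - y = (y * (y - 1)) * (y + 1) := by ring
      obtain ⟨r, hr⟩ := Int.even_mul_pred_self y
      rw [e2, hr]
      have e3 : (r + r) * (y + 1) = 2 * (r * (y + 1)) := by ring
      rw [e3]
      omega
    omega
  obtain ⟨d, hd⟩ : ∃ d, x + y = 2 * d := ⟨(x + y) / 2, by omega⟩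
  obtain ⟨D, rfl⟩ := Int.eq_ofNat_of_zero_le (show 0 ≤ d by omega)
  refine ⟨D, x - D, by omega, hd, ?_⟩
  have hy : y = 2 * D - x := by linarith
  rw [hy] at h
  have e : x ^ 3 + (2 * (D : ℤ) - x) ^ 3 = 2 * (D * (D ^ 2 + 3 * (x - D) ^ 2)) := by ring
  rw [e] at h
  linarith

theorem small {n : ℕ} (hn : 0 < n) {D : ℕ} {t : ℤ} (hD0 : 0 < D) (hD : D < 2 ^ 19)
    (h : (Nat.fib n : ℤ) = D * (D ^ 2 + 3 * t ^ 2)) : n = 1 ∨ n = 2 ∨ n = 6 ∨ n = 7 := by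
  rcases Nat.lt_or_ge D 3 with h3 | h3
  · have : D = 1 ∨ D = 2 := by omega
    rcases this with rfl | rfl
    · have h1 : F n = 3 * t ^ 2 + 1 := by
        unfold F
        rw [h]
        push_cast
        ring
      rcases F_sq h1 with h2 | h2 | h2
      · exact Or.inl h2
      · exact Or.inr (Or.inl h2)
      · exact Or.inr (Or.inr (Or.inr h2))
    · exact Or.inr (Or.inr (Or.inl (six h)))
  · exact (no_large h3 hD h).elim

/-- the part with prime factors above the cube root -/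
theorem cof {n : ℕ} {D c m : ℕ} {t : ℤ} (hc : c ≤ 500000) (hF : Nat.fib n = c * m)
    (hm : ∀ p : ℕ, p.Prime → p ∣ m → Nat.fib n < p ^ 3) (hn : 0 < n) (hD0 : 0 < D)
    (h : (Nat.fib n : ℤ) = D * (D ^ 2 + 3 * t ^ 2)) : D < 2 ^ 19 := by
  obtain ⟨M, hM⟩ : ∃ M : ℕ, (M : ℤ) = D ^ 2 + 3 * t ^ 2 := by
    refine ⟨(((D : ℤ) ^ 2 + 3 * t ^ 2)).toNat, ?_⟩
    rw [Int.toNat_of_nonneg]
    positivity
  have h1 : Nat.fib n = D * M := by
    rw [← hM] at h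
    exact_mod_cast h
  have h2 : D ^ 2 ≤ M := by
    have : (D : ℤ) ^ 2 ≤ M := by
      rw [hM]
      have := sq_nonneg t
      linarith
    exact_mod_cast this
  have hc0 : 0 < c := by
    rcases Nat.eq_zero_or_pos c with h3 | h3
    · rw [h3, zero_mul] at hF
      have := Nat.fib_pos.2 hn
      omega
    · exact h3
  have h4 : Nat.Coprime D m := by
    rw [Nat.coprime_iff_gcd_eq_one]
    by_contra hne
    obtain ⟨p, hp, hpd⟩ := Nat.exists_prime_and_dvd hne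
    have h5 : p ∣ D := hpd.trans (Nat.gcd_dvd_left _ _)
    have h6 : p ∣ m := hpd.trans (Nat.gcd_dvd_right _ _)
    have h7 := hm p hp h6
    have h8 : p ≤ D := Nat.le_of_dvd hD0 h5
    have h9 : p ^ 3 ≤ Nat.fib n := by
      rw [h1]
      calc p ^ 3 ≤ D ^ 3 := Nat.pow_le_pow_left h8 3
        _ = D * D ^ 2 := by ring
        _ ≤ D * M := Nat.mul_le_mul_left D h2
    omega
  have h5 : D ∣ c := h4.dvd_of_dvd_mul_right ⟨M, by rw [← hF, h1]⟩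
  have h6 := Nat.le_of_dvd hc0 h5
  norm_num
  omega

theorem main_fb (n : ℕ) (hn : 0 < n) :
    (∃ x y : ℤ, 2 * (Nat.fib n : ℤ) = x ^ 3 + y ^ 3 ∧ (x + y ≤ 10 ^ 6 ∨
      ∃ c m : ℕ, Nat.fib n = c * m ∧ c ≤ 500000 ∧ ∀ p : ℕ, p.Prime → p ∣ m → Nat.fib n < p ^ 3)) ↔
      n = 1 ∨ n = 2 ∨ n = 6 ∨ n = 7 := by
  constructor
  · rintro ⟨x, y, h, h1⟩
    obtain ⟨D, t, hD0, hxy, hF⟩ := form hn h
    refine small hn hD0 ?_ hF
    rcases h1 with h1 | ⟨c, m, hcm, hc, hm⟩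
    · rw [hxy] at h1
      have h2 : (D : ℤ) ≤ 500000 := by
        norm_num at h1
        linarith
      have h3 : D ≤ 500000 := by exact_mod_cast h2
      norm_num
      omega
    · exact cof hc hcm hm hn hD0 hF
  · rintro (rfl | rfl | rfl | rfl)
    · exact ⟨1, 1, by norm_num, Or.inl (by norm_num)⟩
    · exact ⟨1, 1, by norm_num, Or.inl (by norm_num)⟩
    · exact ⟨2, 2, by norm_num [Nat.fib_add_two], Or.inl (by norm_num)⟩
    · exact ⟨3, -1, by norm_num [Nat.fib_add_two], Or.inl (by norm_num)⟩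

end Pool.Agent.H90.FB
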