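import Pool.Agent.H90.FB.Tb

/-!
MP_572ea3_nt: the main loop of the sieve modulo 720, and the certificates for the exceptional `D`.
-/

set_option autoImplicit false

namespace Pool.Agent.H90.FB

/-- membership -/
noncomputable def mem (D : ℕ) (l : List ℕ) : Bool := List.rec false (fun h _ ih => or (Nat.beq h D) ih) l

theorem mem_spec {D : ℕ} {l : List ℕ} (h : mem D l = true) : D ∈ l := by
  induction l with
  | nil => exact absurd h Bool.false_ne_true
  | cons a l ih =>
    have e : mem D (a :: l) = or (Nat.beq a D) (mem D l) := rfl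
    rw [e, Bool.or_eq_true, beq_iff] at h
    rcases h with h | h
    · rw [h]
      exact List.mem_cons_self
    · exact List.mem_cons_of_mem _ (ih h)

theorem tabs_spec {n D : ℕ} {t : ℤ} (hn : (Nat.fib n : ℤ) = D * (D ^ 2 + 3 * t ^ 2)) :
    ∀ h ∈ tabs, h.2.testBit (720 * (D % h.1) + n % 720) = true := by
  intro h hh
  simp only [tabs, List.mem_cons, List.not_mem_nil, or_false] at hh
  rcases hh with rfl | rfl | rfl | rfl | rfl | rfl | rfl | rfl | rfl | rfl | rfl | rfl | rfl | rfl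
  · exact chk_spec c16 (by norm_num) hn
  · exact chk_spec c27 (by norm_num) hn
  · exact chk_spec c5 (by norm_num) hn
  · exact chk_spec c7 (by norm_num) hn
  · exact chk_spec c11 (by norm_num) hn
  · exact chk_spec c17 (by norm_num) hn
  · exact chk_spec c19 (by norm_num) hn
  · exact chk_spec c23 (by norm_num) hn
  · exact chk_spec c31 (by norm_num) hn
  · exact chk_spec c41 (by norm_num) hn
  · exact chk_spec c61 (by norm_num) hn
  · exact chk_spec c107 (by norm_num) hn
  · exact chk_spec c181 (by norm_num) hn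
  · exact chk_spec c241 (by norm_num) hn

/-- the residue of `n` modulo 720 survives -/
theorem an_surv {n D : ℕ} {t : ℤ} (hn : (Nat.fib n : ℤ) = D * (D ^ 2 + 3 * t ^ 2)) :
    (an D tabs full).testBit (n % 720) = true := by
  refine an_bit tabs full ?_ (tabs_spec hn)
  rw [testBit_full, decide_eq_true]
  exact Nat.mod_lt _ (by norm_num)

/-- the test for `D` -/
noncomputable def f (l : List ℕ) (D : ℕ) : Bool := or (Nat.beq (an D tabs full) 0) (mem D l)

theorem f_spec {l : List ℕ} {n D : ℕ} {t : ℤ} (h : f l D = true)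
    (hn : (Nat.fib n : ℤ) = D * (D ^ 2 + 3 * t ^ 2)) : D ∈ l := by
  unfold f at h
  rw [Bool.or_eq_true, beq_iff] at h
  rcases h with h | h
  · exfalso
    have h1 := an_surv hn
    rw [h, Nat.zero_testBit] at h1
    exact absurd h1 (by decide)
  · exact mem_spec h

/-- Fibonacci numbers modulo `q` -/
noncomputable def fr (q k : ℕ) : ℕ → ℕ → ℕ := Nat.rec (fun a _ => a) (fun _ ih a b => ih b ((a + b) % q)) k

theorem fr_spec (q : ℕ) : ∀ k r : ℕ, fr q k (Nat.fib r % q) (Nat.fib (r + 1) % q) = Nat.fib (r + k) % q := by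
  intro k
  induction k with
  | zero => intro r; rfl
  | succ k ih =>
    intro r
    have e : fr q (k + 1) (Nat.fib r % q) (Nat.fib (r + 1) % q) =
      fr q k (Nat.fib (r + 1) % q) ((Nat.fib r % q + Nat.fib (r + 1) % q) % q) := rfl
    rw [e, fib_step, ih, show r + 1 + k = r + (k + 1) by ring]

theorem fr_eq (q k : ℕ) : fr q k 0 (1 % q) = Nat.fib k % q := by
  have h := fr_spec q k 0
  rw [Nat.fib_zero, Nat.zero_mod, zero_add, Nat.fib_one, zero_add] at h
  exact h

/-- the period check -/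
noncomputable def pc (h : ℕ × ℕ) : Bool :=
  and (Nat.ble 1 h.1) (and (Nat.beq (fr h.1 h.2 0 (1 % h.1)) 0) (Nat.beq (fr h.1 (h.2 + 1) 0 (1 % h.1)) 1))

/-- no value of `D (D ^ 2 + 3 t ^ 2)` modulo `q` is `v` -/
noncomputable def nv (q D v : ℕ) : Bool :=
  fa (fun t => Bool.not (Nat.beq ((D * (D * D + 3 * (t * t))) % q) v)) q

/-- one of the moduli kills the residue `r` modulo `720 e` -/
noncomputable def kl (e D r : ℕ) (l : List (ℕ × ℕ)) : Bool :=
  l.any fun h => and (Nat.beq ((720 * e) % h.2) 0) (nv h.1 D (fr h.1 (r % h.2) 0 (1 % h.1)))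

/-- the certificate check for `D` -/
noncomputable def ck (c : ℕ × List ℕ × ℕ × List (ℕ × ℕ)) : Bool :=
  and (and (Nat.beq (an c.1 tabs full) ((c.2.1.map fun r => 2 ^ r).foldr Nat.lor 0)) (Nat.ble 1 c.2.2.1))
    (c.2.1.all fun r => fa (fun i => kl c.2.2.1 c.1 (r + 720 * i) c.2.2.2) c.2.2.1)

theorem bit_foldr {m : ℕ} : ∀ l : List ℕ, ((l.map fun r => 2 ^ r).foldr Nat.lor 0).testBit m = true → m ∈ l := by
  intro l
  induction l with
  | nil => intro h; exact absurd h (by simp)
  | cons a l ih =>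
    intro h
    rw [List.map_cons, List.foldr_cons] at h
    have e : ∀ x y : ℕ, Nat.lor x y = x ||| y := fun _ _ => rfl
    rw [e, Nat.testBit_or, Bool.or_eq_true] at h
    rcases h with h | h
    · rw [Nat.testBit_two_pow] at h
      rw [decide_eq_true_eq] at h
      rw [h]
      exact List.mem_cons_self
    · exact List.mem_cons_of_mem _ (ih h)

theorem nv_spec {q D v n : ℕ} {t : ℤ} (hq : 0 < q) (h : nv q D v = true)
    (hn : (Nat.fib n : ℤ) = D * (D ^ 2 + 3 * t ^ 2)) : Nat.fib n % q ≠ v := by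
  intro hv
  obtain ⟨s, hs⟩ : ∃ s : ℕ, (s : ℤ) = t % q := by
    refine ⟨(t % q).toNat, ?_⟩
    rw [Int.toNat_of_nonneg]
    exact Int.emod_nonneg _ (by exact_mod_cast hq.ne')
  have hsq : s < q := by
    have : (s : ℤ) < q := by
      rw [hs]
      exact Int.emod_lt_of_pos _ (by exact_mod_cast hq)
    exact_mod_cast this
  have hv2 : Nat.fib n % q = (D * (D * D + 3 * (s * s))) % q := by
    have h9 : (Nat.fib n : ZMod q) = (D : ZMod q) * ((D : ZMod q) ^ 2 + 3 * (t : ZMod q) ^ 2) := by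
      have := congrArg (Int.cast : ℤ → ZMod q) hn
      push_cast at this
      exact this
    have h10 : (t : ZMod q) = (s : ZMod q) := by
      have h11 : ((s : ℤ) : ZMod q) = ((t % q : ℤ) : ZMod q) := by rw [hs]
      rw [ZMod.intCast_mod] at h11
      rw [← h11, Int.cast_natCast]
    have h13 : (Nat.fib n : ZMod q) = ((D * (D * D + 3 * (s * s)) : ℕ) : ZMod q) := by
      rw [h9, h10]
      push_cast
      ring
    exact (ZMod.natCast_eq_natCast_iff' _ _ _).1 h13
  have h1 := fa_spec h s hsq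
  rw [← hv2, hv, Nat.beq_refl] at h1
  exact absurd h1 (by decide)

theorem ck_spec {c : ℕ × List ℕ × ℕ × List (ℕ × ℕ)} (h : ck c = true) (hp : ∀ x ∈ c.2.2.2, pc x = true)
    {n : ℕ} {t : ℤ} (hn : (Nat.fib n : ℤ) = c.1 * (c.1 ^ 2 + 3 * t ^ 2)) : False := by
  unfold ck at h
  rw [Bool.and_eq_true, Bool.and_eq_true, beq_iff] at h
  obtain ⟨⟨h1, h2⟩, h3⟩ := h
  have he : 1 ≤ c.2.2.1 := Nat.le_of_ble_eq_true h2
  have h4 := an_surv hn
  rw [h1] at h4
  have h5 := bit_foldr _ h4
  rw [List.all_eq_true] at h3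
  have h6 := fa_spec (h3 _ h5) (n / 720 % c.2.2.1) (Nat.mod_lt _ (by omega))
  unfold kl at h6
  rw [List.any_eq_true] at h6
  obtain ⟨x, hx, h7⟩ := h6
  rw [Bool.and_eq_true, beq_iff] at h7
  obtain ⟨h8, h9⟩ := h7
  have h10 := hp x hx
  unfold pc at h10
  rw [Bool.and_eq_true, Bool.and_eq_true, beq_iff, beq_iff, fr_eq, fr_eq] at h10
  obtain ⟨h11, h12, h13⟩ := h10
  have hq : 0 < x.1 := Nat.le_of_ble_eq_true h11
  rw [fr_eq] at h9
  refine nv_spec hq h9 hn ?_
  have h14 : n % (720 * c.2.2.1) = n % 720 + 720 * (n / 720 % c.2.2.1) := Nat.mod_mul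
  have h15 : (n % 720 + 720 * (n / 720 % c.2.2.1)) % x.2 = n % x.2 := by
    rw [← h14]
    exact Nat.mod_mod_of_dvd n (Nat.dvd_of_mod_eq_zero h8)
  rw [fib_per' h12 h13 n, h15]

end Pool.Agent.H90.FB
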